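import Pool.Agent.Y8.Stm5
import Pool.Agent.Y458.NS.CR
import Pool.Agent.Y535.NS.B1

/-!
Markov's inequality in the space of labels (helper590, job 272 of helper8).
-/

set_option autoImplicit false

open MeasureTheory Set Metric
open scoped ContDiff ENNReal

namespace Pool.Agent.Y590.NS

open H459R3.NS W221.NS Pool.Agent.Y8

lemma vol_ball (x : V) {r : ℝ} (hr : 0 < r) :
    volume (ball x r) = ENNReal.ofReal ((2 * r) ^ 3) := by
  rw [Real.volume_pi_ball x hr]
  simp [Fintype.card_fin]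

/-- Tonelli for pairs of points at distance less than `ρ`. -/
lemma swap_ball {A B : Set V} (hA : MeasurableSet A) (hB : MeasurableSet B) (ρ : ℝ)
    (hAB : ∀ y ∈ A, ball y ρ ⊆ B) {g : V × V → ℝ≥0∞} (hg : Measurable g) :
    ∫⁻ y in A, ∫⁻ z in ball y ρ, g (y, z) ≤ ∫⁻ z in B, ∫⁻ y in ball z ρ, g (y, z) := by
  have hS : MeasurableSet {q : V × V | dist q.2 q.1 < ρ} :=
    measurableSet_lt (measurable_snd.dist measurable_fst) measurable_const
  have hm : Measurable ({q : V × V | dist q.2 q.1 < ρ}.indicator g) := hg.indicator hS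
  have e1 : ∀ y : V, ∫⁻ z in ball y ρ, g (y, z) =
      ∫⁻ z, {q : V × V | dist q.2 q.1 < ρ}.indicator g (y, z) := by
    intro y
    rw [← lintegral_indicator measurableSet_ball]
    refine lintegral_congr fun z => ?_
    by_cases hz : dist z y < ρ
    · rw [indicator_of_mem (show z ∈ ball y ρ from hz),
        indicator_of_mem (show (y, z) ∈ {q : V × V | dist q.2 q.1 < ρ} from hz)]
    · rw [indicator_of_notMem (show z ∉ ball y ρ from hz),
        indicator_of_notMem (show (y, z) ∉ {q : V × V | dist q.2 q.1 < ρ} from hz)]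
  have e2 : ∀ z : V, ∫⁻ y in ball z ρ, g (y, z) =
      ∫⁻ y, {q : V × V | dist q.2 q.1 < ρ}.indicator g (y, z) := by
    intro z
    rw [← lintegral_indicator measurableSet_ball]
    refine lintegral_congr fun y => ?_
    by_cases hz : dist z y < ρ
    · rw [indicator_of_mem (show y ∈ ball z ρ by rw [mem_ball, dist_comm]; exact hz),
        indicator_of_mem (show (y, z) ∈ {q : V × V | dist q.2 q.1 < ρ} from hz)]
    · rw [indicator_of_notMem (show y ∉ ball z ρ by rw [mem_ball, dist_comm]; exact hz),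
        indicator_of_notMem (show (y, z) ∉ {q : V × V | dist q.2 q.1 < ρ} from hz)]
  simp_rw [e1, e2]
  rw [lintegral_lintegral_swap (f := fun y z => {q : V × V | dist q.2 q.1 < ρ}.indicator g (y, z))
    hm.aemeasurable, ← lintegral_indicator hB]
  refine lintegral_mono fun z => ?_
  by_cases hz : z ∈ B
  · rw [indicator_of_mem hz]
    exact setLIntegral_le_lintegral _ _
  · rw [indicator_of_notMem hz]
    refine le_of_eq ?_
    rw [setLIntegral_congr_fun (g := fun _ => 0) hA]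
    · simp
    · intro y hy
      have : (y, z) ∉ {q : V × V | dist q.2 q.1 < ρ} := fun hc => hz (hAB y hy hc)
      exact indicator_of_notMem this _

/-- Integrals over large balls of periodic functions. -/
lemma per_ball : ∃ C : ℝ, 0 < C ∧ ∀ f : V → ℝ, Continuous f → Per f → (∀ y, 0 ≤ f y) →
    ∀ R : ℝ, 0 ≤ R → ∫⁻ z in ball (0 : V) R, ENNReal.ofReal (f z) ≤
      ENNReal.ofReal (C * (R + 1) ^ 3 * ∫ y in cube, f y) := by
  obtain ⟨C, hC, h⟩ := ball_le 1
  refine ⟨C, hC, fun f hf hp h0 R hR => ?_⟩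
  have hfm : Measurable fun z => ENNReal.ofReal (f z) := hf.measurable.ennreal_ofReal
  have h1 := swap_ball (A := ball (0 : V) R) (B := ball (0 : V) (R + 1)) measurableSet_ball
    measurableSet_ball 1 (fun y hy => by
      refine ball_subset_ball' ?_
      rw [mem_ball] at hy
      linarith) (g := fun q => ENNReal.ofReal (f q.1)) (hfm.comp measurable_fst)
  simp only at h1
  simp_rw [setLIntegral_const, vol_ball _ one_pos] at h1
  rw [lintegral_mul_const _ hfm] at h1
  have hI : 0 ≤ ∫ y in cube, f y := setIntegral_nonneg measurableSet_Icc fun y _ => h0 y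
  have h2 : ∫⁻ z in ball (0 : V) (R + 1), ∫⁻ y in ball z 1, ENNReal.ofReal (f y) ≤
      ∫⁻ z in ball (0 : V) (R + 1), ENNReal.ofReal (C * ∫ y in cube, f y) := by
    refine lintegral_mono fun z => ?_
    rw [← ofReal_integral_eq_lintegral_ofReal (ballint hf z 1) (ae_of_all _ h0)]
    exact ENNReal.ofReal_le_ofReal (h f hf hp h0 z)
  rw [setLIntegral_const, vol_ball _ (by linarith)] at h2
  have h3 := h1.trans h2
  have h8 : ENNReal.ofReal ((2 * 1 : ℝ) ^ 3) ≠ 0 := by
    rw [Ne, ENNReal.ofReal_eq_zero]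
    norm_num
  have h9 : ∫⁻ z in ball (0 : V) R, ENNReal.ofReal (f z) ≤
      ENNReal.ofReal (C * ∫ y in cube, f y) * ENNReal.ofReal ((2 * (R + 1)) ^ 3) /
        ENNReal.ofReal ((2 * 1 : ℝ) ^ 3) := by
    rw [ENNReal.le_div_iff_mul_le (Or.inl h8) (Or.inl ENNReal.ofReal_ne_top)]
    exact h3
  refine h9.trans (le_of_eq ?_)
  rw [← ENNReal.ofReal_mul (by positivity), ← ENNReal.ofReal_div_of_pos (by norm_num)]
  congr 1
  ring

section

variable {G : Set ℝ} {u : ℝ → V → V} {X : ℝ → V → V}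

lemma meas_gen (hG : IsOpen G) (hu : ContDiffOn ℝ ∞ (fun z : ℝ × V => u z.1 z.2) (G ×ˢ univ))
    {S : Set ((ℝ × V) × V)} (hS : MeasurableSet S) (hSG : ∀ w ∈ S, w.1.1 ∈ G) :
    Measurable (fun q : ℝ × V => ∫⁻ z, S.indicator
      (fun w : (ℝ × V) × V => ENNReal.ofReal (gsq (u w.1.1) w.2)) (q, z)) := by
  refine Measurable.lintegral_prod_right' (f := S.indicator
      (fun w : (ℝ × V) × V => ENNReal.ofReal (gsq (u w.1.1) w.2))) ?_
  have hc : ContinuousOn (fun w : (ℝ × V) × V => ENNReal.ofReal (gsq (u w.1.1) w.2)) S := by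
    have h3 := (gsq_joint hG hu).continuousOn
    have h2 : Continuous (fun w : (ℝ × V) × V => ((w.1.1, w.2) : ℝ × V)) := by fun_prop
    have h4 := ContinuousOn.comp (g := fun w : ℝ × V => gsq (u w.1) w.2)
      (f := fun w : (ℝ × V) × V => ((w.1.1, w.2) : ℝ × V)) h3 h2.continuousOn
      (s := S) fun w hw => ⟨hSG w hw, mem_univ _⟩
    exact ENNReal.continuous_ofReal.comp_continuousOn h4
  classical
  have := ContinuousOn.measurable_piecewise (g := fun _ => (0 : ℝ≥0∞)) hc continuousOn_const hS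
  rwa [show (fun _ : (ℝ × V) × V => (0 : ℝ≥0∞)) = 0 from rfl, piecewise_eq_indicator] at this

lemma meas_B2 (hG : IsOpen G) (hu : ContDiffOn ℝ ∞ (fun z : ℝ × V => u z.1 z.2) (G ×ˢ univ))
    (hX : ContinuousOn (fun z : ℝ × V => X z.1 z.2) (G ×ˢ univ)) (ρ : ℝ) :
    Measurable (fun q : ℝ × V =>
      G.indicator (fun t => ENNReal.ofReal (B2 (X t q.2) ρ (u t))) q.1) := by
  have hS : IsOpen ({w : (ℝ × V) × V | w.1.1 ∈ G ∧ dist w.2 (X w.1.1 w.1.2) < ρ}) := by
    have hO : IsOpen ((G ×ˢ (univ : Set V)) ×ˢ (univ : Set V)) :=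
      (hG.prod isOpen_univ).prod isOpen_univ
    have h1 : ContinuousOn (fun w : (ℝ × V) × V => dist w.2 (X w.1.1 w.1.2))
        ((G ×ˢ (univ : Set V)) ×ˢ (univ : Set V)) := by
      have h0 : ContinuousOn (fun w : (ℝ × V) × V => X w.1.1 w.1.2)
          ((G ×ˢ (univ : Set V)) ×ˢ (univ : Set V)) :=
        hX.comp continuousOn_fst fun w hw => hw.1
      exact continuous_dist.comp_continuousOn (continuousOn_snd.prodMk h0)
    have h2 := h1.isOpen_inter_preimage hO (isOpen_Iio (a := ρ))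
    convert h2 using 1
    ext w
    simp
  have h3 := meas_gen (S := {w : (ℝ × V) × V | w.1.1 ∈ G ∧ dist w.2 (X w.1.1 w.1.2) < ρ}) hG hu
    hS.measurableSet fun w hw => hw.1
  convert h3 using 1
  funext q
  by_cases hq : q.1 ∈ G
  · rw [indicator_of_mem hq]
    unfold B2
    rw [ofReal_integral_eq_lintegral_ofReal
      (ballint (gsq_sm (sl_sm hu hq)).continuous _ _) (ae_of_all _ fun z => gsq_nn _ z),
      ← lintegral_indicator measurableSet_ball]
    refine lintegral_congr fun z => ?_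
    by_cases hz : dist z (X q.1 q.2) < ρ
    · rw [indicator_of_mem (show z ∈ ball (X q.1 q.2) ρ from hz),
        indicator_of_mem (show (q, z) ∈ {w : (ℝ × V) × V | w.1.1 ∈ G ∧
          dist w.2 (X w.1.1 w.1.2) < ρ} from ⟨hq, hz⟩)]
    · rw [indicator_of_notMem (show z ∉ ball (X q.1 q.2) ρ from hz),
        indicator_of_notMem (show (q, z) ∉ {w : (ℝ × V) × V | w.1.1 ∈ G ∧
          dist w.2 (X w.1.1 w.1.2) < ρ} from fun hc => hz hc.2)]
  · rw [indicator_of_notMem hq]
    have : ∀ z, ({w : (ℝ × V) × V | w.1.1 ∈ G ∧ dist w.2 (X w.1.1 w.1.2) < ρ}).indicator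
      (fun w : (ℝ × V) × V => ENNReal.ofReal (gsq (u w.1.1) w.2)) (q, z) = 0 := fun z =>
      indicator_of_notMem (fun hc => hq hc.1) _
    simp [this]

lemma meas_enst (hG : IsOpen G)
    (hu : ContDiffOn ℝ ∞ (fun z : ℝ × V => u z.1 z.2) (G ×ˢ univ)) :
    Measurable (fun q : ℝ × V =>
      G.indicator (fun t => ENNReal.ofReal (enstrophy (u t))) q.1) := by
  have hS : MeasurableSet ({w : (ℝ × V) × V | w.1.1 ∈ G ∧ w.2 ∈ cube}) :=
    (hG.measurableSet.preimage (measurable_fst.comp measurable_fst)).inter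
      (measurableSet_Icc.preimage measurable_snd)
  have h3 := meas_gen (S := {w : (ℝ × V) × V | w.1.1 ∈ G ∧ w.2 ∈ cube}) hG hu
    hS fun w hw => hw.1
  convert h3 using 1
  funext q
  by_cases hq : q.1 ∈ G
  · rw [indicator_of_mem hq]
    rw [enst_eq (sl_sm hu hq), ofReal_integral_eq_lintegral_ofReal
      (cube_int (gsq_sm (sl_sm hu hq)).continuous) (ae_of_all _ fun z => gsq_nn _ z),
      ← lintegral_indicator (show MeasurableSet cube from measurableSet_Icc)]
    refine lintegral_congr fun z => ?_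
    by_cases hz : z ∈ cube
    · rw [indicator_of_mem hz,
        indicator_of_mem (show (q, z) ∈ {w : (ℝ × V) × V | w.1.1 ∈ G ∧ w.2 ∈ cube} from ⟨hq, hz⟩)]
    · rw [indicator_of_notMem hz,
        indicator_of_notMem (show (q, z) ∉ {w : (ℝ × V) × V | w.1.1 ∈ G ∧ w.2 ∈ cube} from
          fun hc => hz hc.2)]
  · rw [indicator_of_notMem hq]
    have : ∀ z, ({w : (ℝ × V) × V | w.1.1 ∈ G ∧ w.2 ∈ cube}).indicator
      (fun w : (ℝ × V) × V => ENNReal.ofReal (gsq (u w.1.1) w.2)) (q, z) = 0 := fun z =>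
      indicator_of_notMem (fun hc => hq hc.1) _
    simp [this]

lemma FF_ofReal (m : ℕ) (w : V → V) (x : V) : ENNReal.ofReal (FF m w x) =
    (∑ k ∈ Finset.range m, ENNReal.ofReal (B2 x (2 ^ k / 2 ^ m) w) *
      ENNReal.ofReal (((2 * (2 ^ k / 2 ^ m)) ^ 3)⁻¹) + ENNReal.ofReal (enstrophy w)) *
        ENNReal.ofReal ((16 ^ m)⁻¹) := by
  unfold FF avg
  have h1 : ∀ k ∈ Finset.range m, 0 ≤ (∫ y in ball x (2 ^ k / 2 ^ m), gsq w y) /
      (2 * (2 ^ k / 2 ^ m)) ^ 3 := fun k _ =>
    div_nonneg (integral_nonneg fun z => gsq_nn w z) (by positivity)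
  have h2 := Finset.sum_nonneg h1
  rw [div_eq_mul_inv, ENNReal.ofReal_mul (add_nonneg h2 (enst_nn w)),
    ENNReal.ofReal_add h2 (enst_nn w), ENNReal.ofReal_sum_of_nonneg h1]
  congr 2
  refine Finset.sum_congr rfl fun k _ => ?_
  rw [div_eq_mul_inv, ENNReal.ofReal_mul (integral_nonneg fun z => gsq_nn w z)]
  rfl

lemma meas_FF (hG : IsOpen G) (hu : ContDiffOn ℝ ∞ (fun z : ℝ × V => u z.1 z.2) (G ×ˢ univ))
    (hX : ContinuousOn (fun z : ℝ × V => X z.1 z.2) (G ×ˢ univ)) (m : ℕ) :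
    Measurable (fun q : ℝ × V =>
      G.indicator (fun t => ENNReal.ofReal (FF m (u t) (X t q.2))) q.1) := by
  have e : (fun q : ℝ × V => G.indicator (fun t => ENNReal.ofReal (FF m (u t) (X t q.2))) q.1) =
      fun q : ℝ × V => (∑ k ∈ Finset.range m,
        G.indicator (fun t => ENNReal.ofReal (B2 (X t q.2) (2 ^ k / 2 ^ m) (u t))) q.1 *
      ENNReal.ofReal (((2 * (2 ^ k / 2 ^ m)) ^ 3)⁻¹) +
        G.indicator (fun t => ENNReal.ofReal (enstrophy (u t))) q.1) *
        ENNReal.ofReal ((16 ^ m)⁻¹) := by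
    funext q
    by_cases hq : q.1 ∈ G
    · simp only [indicator_of_mem hq]
      exact FF_ofReal m _ _
    · simp only [indicator_of_notMem hq]
      simp
  rw [e]
  refine Measurable.mul_const (Measurable.add ?_ (meas_enst hG hu)) _
  refine Finset.measurable_fun_sum _ fun k _ => ?_
  exact (meas_B2 hG hu hX _).mul_const _

end

lemma meas_B2' {w : V → V} (hw : ContDiff ℝ ∞ w) (ρ : ℝ) :
    Measurable (fun x : V => ENNReal.ofReal (B2 x ρ w)) := by
  have h1 := meas_B2 (G := univ) (u := fun _ => w) (X := fun _ y => y) isOpen_univ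
    (hw.comp contDiff_snd).contDiffOn continuous_snd.continuousOn ρ
  have h2 := h1.comp (measurable_prodMk_left (x := (0 : ℝ)) (β := V))
  simpa [Function.comp_def] using h2

lemma B2_ball : ∃ C : ℝ, 0 < C ∧ ∀ w : V → V, SPV w → ∀ (R ρ : ℝ), 0 ≤ R → 0 < ρ → ρ ≤ 1 →
    ∫⁻ x in ball (0 : V) R, ENNReal.ofReal (B2 x ρ w) ≤
      ENNReal.ofReal ((2 * ρ) ^ 3) * ENNReal.ofReal (C * (R + 1) ^ 3 * enstrophy w) := by
  obtain ⟨C, hC, h⟩ := per_ball
  refine ⟨8 * C, by positivity, fun w hw R ρ hR hρ hρ1 => ?_⟩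
  have hc := (gsq_sm hw.1).continuous
  have hfm : Measurable fun z => ENNReal.ofReal (gsq w z) := hc.measurable.ennreal_ofReal
  have h1 := swap_ball (A := ball (0 : V) R) (B := ball (0 : V) (R + 1)) measurableSet_ball
    measurableSet_ball ρ (fun y hy => by
      refine ball_subset_ball' ?_
      rw [mem_ball] at hy
      linarith) (g := fun q => ENNReal.ofReal (gsq w q.2)) (hfm.comp measurable_snd)
  simp only at h1
  simp_rw [setLIntegral_const, vol_ball _ hρ] at h1
  rw [lintegral_mul_const _ hfm] at h1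
  have e : ∀ x, ENNReal.ofReal (B2 x ρ w) = ∫⁻ z in ball x ρ, ENNReal.ofReal (gsq w z) := by
    intro x
    unfold B2
    rw [ofReal_integral_eq_lintegral_ofReal (ballint hc _ _) (ae_of_all _ fun z => gsq_nn w z)]
  simp_rw [e]
  refine h1.trans ?_
  rw [mul_comm]
  refine mul_le_mul_right ?_ _
  refine (h _ hc (gsq_per hw.2) (gsq_nn w) (R + 1) (by linarith)).trans ?_
  rw [← enst_eq hw.1]
  refine ENNReal.ofReal_le_ofReal ?_
  refine mul_le_mul_of_nonneg_right ?_ (enst_nn w)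
  have : (R + 1 + 1) ^ 3 ≤ 8 * (R + 1) ^ 3 := by
    have h2 : R + 1 + 1 ≤ 2 * (R + 1) := by linarith
    calc (R + 1 + 1) ^ 3 ≤ (2 * (R + 1)) ^ 3 := pow_le_pow_left₀ (by linarith) h2 3
      _ = _ := by ring
  nlinarith

lemma FF_ball : ∃ C : ℝ, 0 < C ∧ ∀ w : V → V, SPV w → ∀ (R : ℝ) (m : ℕ), 0 ≤ R →
    ∫⁻ x in ball (0 : V) R, ENNReal.ofReal (FF m w x) ≤
      ENNReal.ofReal (C * (R + 1) ^ 3 * ((m + 1) / 16 ^ m) * enstrophy w) := by
  obtain ⟨C, hC, h⟩ := B2_ball
  refine ⟨C + 8, by positivity, fun w hw R m hR => ?_⟩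
  have hen := enst_nn w
  simp_rw [FF_ofReal]
  rw [lintegral_mul_const' _ _ ENNReal.ofReal_ne_top]
  have hm1 : ∀ k, Measurable fun x : V => ENNReal.ofReal (B2 x (2 ^ k / 2 ^ m) w) *
      ENNReal.ofReal (((2 * (2 ^ k / 2 ^ m)) ^ 3)⁻¹) := fun k => (meas_B2' hw.1 _).mul_const _
  rw [lintegral_add_right _ measurable_const, lintegral_finsetSum _ fun k _ => hm1 k]
  have h1 : ∀ k ∈ Finset.range m, ∫⁻ x in ball (0 : V) R, ENNReal.ofReal (B2 x (2 ^ k / 2 ^ m) w) *
      ENNReal.ofReal (((2 * (2 ^ k / 2 ^ m)) ^ 3)⁻¹) ≤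
        ENNReal.ofReal (C * (R + 1) ^ 3 * enstrophy w) := by
    intro k hk
    have hk' : k < m := Finset.mem_range.1 hk
    have a1 : (0 : ℝ) < 2 ^ k / 2 ^ m := by positivity
    have a2 : (2 : ℝ) ^ k / 2 ^ m ≤ 1 := by
      rw [div_le_one (by positivity)]
      exact pow_le_pow_right₀ (by norm_num) hk'.le
    rw [lintegral_mul_const' _ _ ENNReal.ofReal_ne_top]
    have h2 := h w hw R _ hR a1 a2
    calc _ ≤ ENNReal.ofReal ((2 * (2 ^ k / 2 ^ m)) ^ 3) *
          ENNReal.ofReal (C * (R + 1) ^ 3 * enstrophy w) *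
            ENNReal.ofReal (((2 * (2 ^ k / 2 ^ m)) ^ 3)⁻¹) := mul_le_mul_left h2 _
      _ = _ := by
        rw [← ENNReal.ofReal_mul (by positivity), ← ENNReal.ofReal_mul (by positivity)]
        congr 1
        field_simp
  have h3 : ∫⁻ _ in ball (0 : V) R, ENNReal.ofReal (enstrophy w) ≤
      ENNReal.ofReal (8 * (R + 1) ^ 3 * enstrophy w) := by
    rw [setLIntegral_const]
    have : volume (ball (0 : V) R) ≤ ENNReal.ofReal ((2 * (R + 1)) ^ 3) := by
      rw [← vol_ball (0 : V) (by linarith : 0 < R + 1)]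
      exact measure_mono (ball_subset_ball (by linarith))
    calc _ ≤ ENNReal.ofReal (enstrophy w) * ENNReal.ofReal ((2 * (R + 1)) ^ 3) :=
          mul_le_mul_right this _
      _ = _ := by
        rw [← ENNReal.ofReal_mul hen]
        congr 1
        ring
  calc _ ≤ (∑ k ∈ Finset.range m, ENNReal.ofReal (C * (R + 1) ^ 3 * enstrophy w) +
        ENNReal.ofReal (8 * (R + 1) ^ 3 * enstrophy w)) * ENNReal.ofReal ((16 ^ m)⁻¹) :=
        mul_le_mul_left (add_le_add (Finset.sum_le_sum h1) h3) _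
    _ = ENNReal.ofReal ((m * (C * (R + 1) ^ 3 * enstrophy w) + 8 * (R + 1) ^ 3 * enstrophy w) *
        (16 ^ m)⁻¹) := by
        rw [Finset.sum_const, Finset.card_range, nsmul_eq_mul,
          ENNReal.ofReal_mul (p := m * (C * (R + 1) ^ 3 * enstrophy w) +
            8 * (R + 1) ^ 3 * enstrophy w) (by positivity),
          ENNReal.ofReal_add (by positivity) (by positivity),
          ENNReal.ofReal_mul (p := (m : ℝ)) (by positivity), ENNReal.ofReal_natCast]
    _ ≤ _ := by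
        refine ENNReal.ofReal_le_ofReal ?_
        rw [div_eq_mul_inv]
        have h16 : (0 : ℝ) < (16 ^ m)⁻¹ := by positivity
        have hR1 : 0 ≤ (R + 1) ^ 3 * enstrophy w := by positivity
        have hkey : m * (C * (R + 1) ^ 3 * enstrophy w) + 8 * (R + 1) ^ 3 * enstrophy w ≤
            (C + 8) * (R + 1) ^ 3 * (m + 1) * enstrophy w := by
          have : 0 ≤ ((R + 1) ^ 3 * enstrophy w) * (C + 8 * m) := by positivity
          nlinarith
        calc _ ≤ ((C + 8) * (R + 1) ^ 3 * (m + 1) * enstrophy w) * (16 ^ m)⁻¹ :=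
              mul_le_mul_of_nonneg_right hkey h16.le
          _ = _ := by ring

theorem t_WMARK : S_WMARK := by
  obtain ⟨C, hC, hFF⟩ := FF_ball
  refine ⟨C, hC, ?_⟩
  intro T E D G u p h m s t₀ hs hsT ht₀ X Y B C' hB hW R ε hR hε
  have hr0 : 0 < rr m := by unfold rr; positivity
  obtain ⟨r, hrd⟩ : ∃ r, r = rr m := ⟨_, rfl⟩
  have hr4 : (r ^ 2)⁻¹ = 4 ^ m := by
    rw [hrd, Pool.Agent.Y535.B1.rr_eq, inv_pow, inv_inv, ← pow_mul, mul_comm, pow_mul]
    norm_num
  rw [← hrd] at hs ht₀ hW hr0 ⊢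
  have hr2 : 0 < r ^ 2 := by positivity
  have hsub : Ioo (s - r ^ 2) s ⊆ Ioo 0 T := fun t ht => ⟨by linarith [ht.1], by linarith [ht.2]⟩
  have ht₀T : t₀ ∈ Ioo 0 T := ⟨by linarith [ht₀.1], by linarith [ht₀.2]⟩
  -- displacement
  have hdisp : ∀ t ∈ Ioo (s - r ^ 2) s, ∀ y ∈ ball (0 : V) R, X t y ∈ ball (0 : V) (R + B * r ^ 2) := by
    intro t ht y hy
    have h1 := Convex.norm_image_sub_le_of_norm_hasDerivWithin_le (f := fun t => X t y)
      (f' := fun t => Y t y) (s := Ioo 0 T) (C := B)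
      (fun τ hτ => ((hW.path y).hd τ hτ).hasDerivWithinAt) (fun τ hτ => (hW.path y).bd τ hτ)
      (convex_Ioo 0 T) ht₀T (hsub ht)
    simp only [hW.lab y] at h1
    have h2 : ‖t - t₀‖ ≤ r ^ 2 := by
      rw [Real.norm_eq_abs, abs_le]
      constructor
      · linarith [ht.1, ht₀.2]
      · linarith [ht.2, ht₀.1]
    rw [mem_ball, dist_zero_right] at hy ⊢
    have h3 : ‖X t y‖ ≤ ‖X t y - y‖ + ‖y‖ := by
      have := norm_add_le (X t y - y) y
      simpa using this
    have h4 : B * ‖t - t₀‖ ≤ B * r ^ 2 := mul_le_mul_of_nonneg_left h2 hB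
    linarith
  obtain ⟨R', hR'⟩ : ∃ R', R' = R + B * r ^ 2 := ⟨_, rfl⟩
  have hR'0 : 0 ≤ R' := by rw [hR']; positivity
  rw [← hR'] at hdisp ⊢
  have hXc : ContinuousOn (fun z : ℝ × V => X z.1 z.2) (G ×ˢ univ) :=
    hW.cont.mono (prod_mono h.subG subset_rfl)
  obtain ⟨g, hg⟩ : ∃ g : ℝ × V → ℝ≥0∞, g = fun q : ℝ × V =>
      G.indicator (fun t => ENNReal.ofReal (FF m (u t) (X t q.2))) q.1 := ⟨_, rfl⟩
  have hgm : Measurable g := by
    rw [hg]
    exact meas_FF h.openG h.smooth_u hXc m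
  obtain ⟨Ψ, hΨ⟩ : ∃ Ψ : V → ℝ≥0∞, Ψ = fun y => ∫⁻ t in Ioo (s - r ^ 2) s, g (t, y) := ⟨_, rfl⟩
  have hΨm : Measurable Ψ := by
    rw [hΨ]
    exact hgm.lintegral_prod_left'
  have haeG : ∀ᵐ τ ∂(volume.restrict (Ioo (s - r ^ 2) s)), τ ∈ G :=
    aeT h (by linarith) hsT.le
  -- inclusion
  have hincl : {y ∈ ball (0 : V) R | ε ≤ ∫ t in Ioo (-1 : ℝ) 0,
      FF m (u (s + r ^ 2 * t)) (X (s + r ^ 2 * t) y)} ⊆
      {y | ENNReal.ofReal (ε * r ^ 2) ≤ Ψ y} ∩ ball (0 : V) R := by
    rintro y ⟨hy, hye⟩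
    refine ⟨?_, hy⟩
    have e1 : ∫ t in Ioo (-1 : ℝ) 0, FF m (u (s + r ^ 2 * t)) (X (s + r ^ 2 * t) y) =
        (r ^ 2)⁻¹ * ∫ t in Ioo (s - r ^ 2) s, FF m (u t) (X t y) := by
      rw [← integral_Ioc_eq_integral_Ioo, ← integral_Ioc_eq_integral_Ioo,
        ← intervalIntegral.integral_of_le (by norm_num), ← intervalIntegral.integral_of_le
        (by linarith), intervalIntegral.integral_comp_add_mul (f := fun t => FF m (u t) (X t y))
        (c := r ^ 2) (by positivity) s, smul_eq_mul]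
      congr 2
      · ring
      · ring
    rw [e1, inv_mul_eq_div, le_div_iff₀ hr2] at hye
    have hint : IntegrableOn (fun t => FF m (u t) (X t y)) (Ioo (s - r ^ 2) s) := by
      by_contra hc
      rw [integral_undef hc] at hye
      have : 0 < ε * r ^ 2 := by positivity
      linarith
    show ENNReal.ofReal (ε * r ^ 2) ≤ Ψ y
    calc ENNReal.ofReal (ε * r ^ 2) ≤
          ENNReal.ofReal (∫ t in Ioo (s - r ^ 2) s, FF m (u t) (X t y)) :=
          ENNReal.ofReal_le_ofReal hye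
      _ = ∫⁻ t in Ioo (s - r ^ 2) s, ENNReal.ofReal (FF m (u t) (X t y)) :=
          ofReal_integral_eq_lintegral_ofReal hint
            (ae_of_all _ fun t => Pool.Agent.Y535.B1.FF_nn m _ _)
      _ = Ψ y := by
          rw [hΨ]
          refine lintegral_congr_ae ?_
          filter_upwards [haeG] with t ht
          rw [hg]
          simp only [indicator_of_mem ht]
  -- Markov
  have hmk : ENNReal.ofReal (ε * r ^ 2) * (volume.restrict (ball (0 : V) R))
      {y | ENNReal.ofReal (ε * r ^ 2) ≤ Ψ y} ≤ ∫⁻ y in ball (0 : V) R, Ψ y :=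
    mul_meas_ge_le_lintegral hΨm _
  rw [Measure.restrict_apply' measurableSet_ball] at hmk
  -- Tonelli
  have hton : ∫⁻ y in ball (0 : V) R, Ψ y =
      ∫⁻ t in Ioo (s - r ^ 2) s, ∫⁻ y in ball (0 : V) R, g (t, y) := by
    rw [hΨ]
    exact lintegral_lintegral_swap (f := fun y t => g (t, y))
      (hgm.comp measurable_swap).aemeasurable
  obtain ⟨K, hK⟩ : ∃ K : ℝ, K = C * (R' + 1) ^ 3 * ((m + 1) / 16 ^ m) := ⟨_, rfl⟩
  have hK0 : 0 ≤ K := by rw [hK]; positivity
  have hslice : ∀ t ∈ Ioo (s - r ^ 2) s, ∫⁻ y in ball (0 : V) R, g (t, y) ≤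
      ENNReal.ofReal (K * enstrophy (u t)) := by
    intro t ht
    by_cases htG : t ∈ G
    · have e : ∀ y, g (t, y) = ENNReal.ofReal (FF m (u t) (X t y)) := by
        intro y
        rw [hg]
        simp only [indicator_of_mem htG]
      simp_rw [e]
      have hXm : Measurable (X t) := (sl_ct hXc htG).measurable
      have hFm : Measurable fun x => ENNReal.ofReal (FF m (u t) x) := by
        have h1 := meas_FF (G := G) (u := u) (X := fun _ y => y) h.openG h.smooth_u
          continuous_snd.continuousOn m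
        have h2 := h1.comp (measurable_prodMk_left (x := t) (β := V))
        simpa [Function.comp_def, indicator_of_mem htG] using h2
      calc ∫⁻ y in ball (0 : V) R, ENNReal.ofReal (FF m (u t) (X t y))
          ≤ ∫⁻ y, (ball (0 : V) R').indicator (fun x => ENNReal.ofReal (FF m (u t) x)) (X t y) := by
            rw [← lintegral_indicator measurableSet_ball]
            refine lintegral_mono fun y => ?_
            by_cases hy : y ∈ ball (0 : V) R
            · rw [indicator_of_mem hy, indicator_of_mem (hdisp t ht y hy)]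
            · rw [indicator_of_notMem hy]
              exact zero_le
        _ = ∫⁻ x, (ball (0 : V) R').indicator (fun x => ENNReal.ofReal (FF m (u t) x)) x := by
            conv_rhs => rw [← hW.meas t (hsub ht)]
            rw [lintegral_map (hFm.indicator measurableSet_ball) hXm]
        _ = ∫⁻ x in ball (0 : V) R', ENNReal.ofReal (FF m (u t) x) :=
            lintegral_indicator measurableSet_ball _
        _ ≤ _ := by
            rw [hK]
            exact hFF (u t) (h.spv htG) R' m hR'0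
    · have e : ∀ y, g (t, y) = 0 := by
        intro y
        rw [hg]
        simp only [indicator_of_notMem htG]
      simp [e]
  have hen : IntegrableOn (fun t => enstrophy (u t)) (Ioo (s - r ^ 2) s) :=
    (Pool.Agent.Y535.B1.enst_intT h).mono_set hsub
  have hfin : ∫⁻ t in Ioo (s - r ^ 2) s, ∫⁻ y in ball (0 : V) R, g (t, y) ≤
      ENNReal.ofReal (K * ∫ t in Ioo (s - r ^ 2) s, enstrophy (u t)) := by
    calc _ ≤ ∫⁻ t in Ioo (s - r ^ 2) s, ENNReal.ofReal (K * enstrophy (u t)) :=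
          setLIntegral_mono' measurableSet_Ioo hslice
      _ = ENNReal.ofReal (∫ t in Ioo (s - r ^ 2) s, K * enstrophy (u t)) := by
          rw [ofReal_integral_eq_lintegral_ofReal (hen.const_mul K)
            (ae_of_all _ fun t => mul_nonneg hK0 (enst_nn _))]
      _ = _ := by rw [integral_const_mul]
  have hall := hmk.trans (hton.le.trans hfin)
  have hpos : 0 < ε * r ^ 2 := by positivity
  have h8 : ENNReal.ofReal (ε * r ^ 2) ≠ 0 := by
    rw [Ne, ENNReal.ofReal_eq_zero, not_le]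
    exact hpos
  refine (measure_mono hincl).trans ?_
  have h9 : volume ({y | ENNReal.ofReal (ε * r ^ 2) ≤ Ψ y} ∩ ball (0 : V) R) ≤
      ENNReal.ofReal (K * ∫ t in Ioo (s - r ^ 2) s, enstrophy (u t)) /
        ENNReal.ofReal (ε * r ^ 2) := by
    rw [ENNReal.le_div_iff_mul_le (Or.inl h8) (Or.inl ENNReal.ofReal_ne_top), mul_comm]
    exact hall
  refine h9.trans (le_of_eq ?_)
  rw [← ENNReal.ofReal_div_of_pos hpos]
  congr 1
  have h16 : (16 : ℝ) ^ m = 4 ^ m * 4 ^ m := by
    rw [← mul_pow]; norm_num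
  have e4 : r ^ 2 = (4 ^ m)⁻¹ := by rw [← hr4, inv_inv]
  rw [hK, e4, h16]
  field_simp

end Pool.Agent.Y590.NS
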